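import Pool.Agent.H38Z.Acy.Main

set_option autoImplicit false

namespace Pool.Agent.Results.MP_b17c1b_co.Counterexample

open Pool.Agent.H38Z.Acy

/-- There is a finite simple graph whose acyclic chromatic index is `3` and whose acyclic list
chromatic index is larger. -/
theorem result : ∃ (n : ℕ) (H : SimpleGraph (Fin n)),
    acyclicIndex H = 3 ∧ acyclicIndex H < acyclicListIndex H :=
  ⟨57, G, index_eq, index_eq ▸ list_index_gt⟩

end Pool.Agent.Results.MP_b17c1b_co.Counterexample
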